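import Pool.Agent.EDG.Stmts

/-!
# Squad EDG, row DIV: dividing by the power of two
-/

set_option autoImplicit false

namespace Pool.Agent.EDG.H40

open Polynomial Finset

theorem lin_zero {R : Type} [CommRing R] (m : ℕ → R[X])
    (hm : ∀ e, (m e).Monic ∧ (m e).natDegree = e) (q : ℕ → R) (N : ℕ)
    (h : ∑ e ∈ range N, C (q e) * m e = 0) : ∀ e < N, q e = 0 := by
  induction N with
  | zero =>
    intro e he
    omega
  | succ N ih =>
    have h1 := congrArg (fun p : R[X] => p.coeff N) h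
    simp only [finsetSum_coeff, coeff_C_mul, coeff_zero] at h1
    rw [sum_range_succ] at h1
    have h2 : ∑ e ∈ range N, q e * (m e).coeff N = 0 := by
      apply sum_eq_zero
      intro e he
      rw [coeff_eq_zero_of_natDegree_lt (by rw [(hm e).2]; exact mem_range.1 he), mul_zero]
    have h3 : (m N).coeff N = 1 := by
      have := (hm N).1.coeff_natDegree
      rwa [(hm N).2] at this
    rw [h2, h3, zero_add, mul_one] at h1
    have h4 : ∑ e ∈ range N, C (q e) * m e = 0 := by
      rw [sum_range_succ, h1, C_0, zero_mul, add_zero] at h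
      exact h
    intro e he
    rcases Nat.lt_succ_iff_lt_or_eq.1 he with h5 | h5
    · exact ih h4 e h5
    · rw [h5]
      exact h1

theorem div : DivStmt := by
  classical
  intro N d Θ hΘ h0
  obtain ⟨P, hP1, hP2⟩ := hΘ
  -- some coefficient polynomial is not zero
  obtain ⟨e0, he0, hne⟩ : ∃ e0 < N, P e0 ≠ 0 := by
    by_contra hcon
    push Not at hcon
    apply h0
    rw [hP2]
    apply sum_eq_zero
    intro e he
    rw [hcon e (mem_range.1 he), C_0, zero_mul]
  obtain ⟨i0, hi0⟩ : ∃ i0, (P e0).coeff i0 ≠ 0 := by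
    by_contra hcon
    push Not at hcon
    exact hne (Polynomial.ext (by simpa using hcon))
  have hbd : ∃ k : ℕ, ¬ ∀ e < N, C ((2 : ℤ) ^ (k + 1)) ∣ P e := by
    refine ⟨((P e0).coeff i0).natAbs, fun hall => ?_⟩
    have h1 := (C_dvd_iff_dvd_coeff _ _).1 (hall e0 he0) i0
    have h2 := Int.natAbs_dvd_natAbs.2 h1
    rw [Int.natAbs_pow] at h2
    have h3 := Nat.le_of_dvd (Int.natAbs_pos.2 hi0) h2
    have h4 : ((P e0).coeff i0).natAbs < 2 ^ ((P e0).coeff i0).natAbs := Nat.lt_two_pow_self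
    have h5 : 2 ^ ((P e0).coeff i0).natAbs ≤ 2 ^ (((P e0).coeff i0).natAbs + 1) :=
      Nat.pow_le_pow_right (by norm_num) (Nat.le_succ _)
    have h6 : (2 : ℤ).natAbs = 2 := rfl
    rw [h6] at h3
    omega
  obtain ⟨k, hk⟩ : ∃ k, k = Nat.find hbd := ⟨_, rfl⟩
  have hk1 : ¬ ∀ e < N, C ((2 : ℤ) ^ (k + 1)) ∣ P e := by
    rw [hk]
    exact Nat.find_spec hbd
  have hk2 : ∀ e < N, C ((2 : ℤ) ^ k) ∣ P e := by
    rcases Nat.eq_zero_or_pos k with h1 | h1
    · intro e _
      rw [h1, pow_zero, C_1]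
      exact one_dvd _
    · have h2 := Nat.find_min hbd (m := k - 1) (by rw [← hk]; omega)
      push Not at h2
      rw [Nat.sub_add_cancel h1] at h2
      exact h2
  have hch : ∀ e, ∃ P' : ℤ[X], (e < N → P e = C ((2 : ℤ) ^ k) * P') ∧ (¬ e < N → P' = 0) := by
    intro e
    by_cases he : e < N
    · obtain ⟨P', hP'⟩ := hk2 e he
      exact ⟨P', fun _ => hP', fun h => absurd he h⟩
    · exact ⟨0, fun h => absurd h he, fun _ => rfl⟩
  choose P' hP' hP'0 using hch
  have h2k : (2 : ℤ) ^ k ≠ 0 := pow_ne_zero _ two_ne_zero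
  refine ⟨k, ∑ e ∈ range N, C (P' e) * h e, ⟨P', ?_, rfl⟩, ?_, ?_⟩
  · intro e
    by_cases he : e < N
    · have h1 := hP1 e
      rw [hP' e he, degree_C_mul h2k] at h1
      exact h1
    · rw [hP'0 e he, degree_zero]
      exact WithBot.bot_lt_coe _
  · intro hred
    apply hk1
    have h1 : ∑ e ∈ range N, C ((P' e).map (Int.castRingHom (ZMod 2))) *
        (h e).map (mapRingHom (Int.castRingHom (ZMod 2))) = 0 := by
      rw [← hred, map_sum]
      refine sum_congr rfl fun e _ => ?_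
      rw [map_mul]
      unfold red2
      rw [coe_mapRingHom, map_C, coe_mapRingHom]
    have h2 := lin_zero (fun e => (h e).map (mapRingHom (Int.castRingHom (ZMod 2))))
      (fun e => ⟨(h_monic e).map _, by rw [(h_monic e).natDegree_map, h_natDegree]⟩)
      (fun e => (P' e).map (Int.castRingHom (ZMod 2))) N h1
    intro e he
    rw [hP' e he, pow_succ, C_mul]
    refine mul_dvd_mul_left _ ?_
    rw [C_dvd_iff_dvd_coeff]
    intro i
    have h3 := congrArg (fun p : (ZMod 2)[X] => p.coeff i) (h2 e he)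
    simp only [coeff_map, coeff_zero, eq_intCast] at h3
    exact (ZMod.intCast_zmod_eq_zero_iff_dvd _ 2).1 h3
  · rw [hP2, mul_sum]
    refine sum_congr rfl fun e he => ?_
    rw [hP' e (mem_range.1 he), C_mul, C_pow, C_pow]
    have h3 : (C (C (2 : ℤ)) : ℤ[X][X]) = 2 := by
      rw [show (C (2 : ℤ) : ℤ[X]) = 2 from rfl]
      rfl
    rw [h3]
    ring

end Pool.Agent.EDG.H40
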