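import Pool.Agent.EDG.Stmts

/-!
# Squad EDG, row HBC: the two kinds of columns
-/

set_option autoImplicit false

namespace Pool.Agent.EDG.H40

open Polynomial Finset

theorem hbc : HbcStmt := by
  intro hba
  constructor
  · intro N m η k Θ hΘ hN
    obtain ⟨P, hP1, hP2⟩ := hΘ
    have h1 : ∀ e : ℕ, ∃ N' : ℕ, e < N → InF N' (m + η) (C (P e) * (h e * h k)) := by
      intro e
      by_cases he : e < N
      · obtain ⟨N', hN'⟩ := hba e (k + 1) 1 (h k) (InF_h k)
        have hs : Nat.size e ≤ η := Nat.size_le.2 (lt_of_lt_of_le he hN)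
        exact ⟨N', fun _ => (hN'.mulC (P e) (hP1 e)).mono le_rfl (by omega)⟩
      · exact ⟨0, fun h => absurd h he⟩
    choose N' hN' using h1
    refine ⟨∑ e ∈ range N, N' e, ?_⟩
    have h2 : h k * Θ = ∑ e ∈ range N, C (P e) * (h e * h k) := by
      rw [hP2, mul_sum]
      refine sum_congr rfl fun e _ => ?_
      ring
    rw [h2]
    refine InF.sum _ _ fun e he => ?_
    exact (hN' e (mem_range.1 he)).mono
      (single_le_sum (f := N') (fun _ _ => Nat.zero_le _) he) le_rfl
  · intro N m η k Θ hΘ hk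
    obtain ⟨N', hN'⟩ := hba k N m Θ hΘ
    have hs : Nat.size k ≤ η := Nat.size_le.2 hk
    exact ⟨N', hN'.mono le_rfl (by omega)⟩

end Pool.Agent.EDG.H40
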