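import Pool.Agent.EDG.Stmts

/-!
# Squad EDG, row SYL: relatively prime polynomials
-/

set_option autoImplicit false

namespace Pool.Agent.EDG.H40

open Polynomial Finset

theorem syl : SylStmt := by
  intro A B u v hAB hA hB hu hv huv
  have h1 : A ∣ v * B := by
    refine ⟨-u, ?_⟩
    linear_combination huv
  have h2 : A ∣ v := hAB.dvd_of_dvd_mul_right h1
  have h3 : v = 0 := eq_zero_of_dvd_of_degree_lt h2 hv
  rw [h3, zero_mul, add_zero] at huv
  exact ⟨(mul_eq_zero.1 huv).resolve_right hA, h3⟩

end Pool.Agent.EDG.H40
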